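import Mathlib

set_option autoImplicit false

namespace Pool.Agent.MazurZ

open MvPolynomial

/-- In a completion of `ℚ` there is a rational number whose distance to the squares is bounded
below. -/
theorem exists_nonsquare {L : Type*} [NontriviallyNormedField L] (σ : ℚ →+* L)
    (hσ : DenseRange σ) : ∃ α : ℚ, α ≠ 0 ∧ ∃ δ : ℝ, 0 < δ ∧ ∀ z : L, δ ≤ ‖z ^ 2 - σ α‖ := by
  -- reduction to rational z
  have key : ∀ (α : ℚ) (δ : ℝ), (∀ q : ℚ, δ ≤ ‖σ (q ^ 2 - α)‖) → ∀ z : L, δ ≤ ‖z ^ 2 - σ α‖ := by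
    intro α δ h z
    have hcl : IsClosed {z : L | δ ≤ ‖z ^ 2 - σ α‖} :=
      isClosed_le continuous_const (by fun_prop)
    have : Set.range σ ⊆ {z : L | δ ≤ ‖z ^ 2 - σ α‖} := by
      rintro _ ⟨q, rfl⟩
      have := h q
      simpa [map_sub, map_pow] using this
    exact hcl.closure_subset_iff.mpr this (hσ z)
  let f : AbsoluteValue ℚ ℝ :=
    { toFun := fun q => ‖σ q‖
      map_mul' := fun a b => by simp [map_mul, norm_mul]
      nonneg' := fun a => norm_nonneg _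
      eq_zero' := fun a => by rw [norm_eq_zero]; exact map_eq_zero σ
      add_le' := fun a b => by
        rw [map_add]; exact norm_add_le _ _ }
  have hf : ∀ q, f q = ‖σ q‖ := fun q => rfl
  have hnt : f.IsNontrivial := by
    obtain ⟨x, hx⟩ := NontriviallyNormedField.non_trivial (α := L)
    have hop : IsOpen {y : L | 1 < ‖y‖} := isOpen_lt continuous_const continuous_norm
    obtain ⟨q, hq⟩ := hσ.exists_mem_open hop ⟨x, hx⟩
    refine ⟨q, ?_, ?_⟩
    · rintro rfl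
      simp at hq
      linarith
    · rw [hf]
      exact ne_of_gt hq
  rcases Rat.AbsoluteValue.equiv_real_or_padic f hnt with h | ⟨p, ⟨hp, h⟩, _⟩
  · refine ⟨-1, by norm_num, 1, one_pos, key _ _ (fun q => ?_)⟩
    have h1 : Rat.AbsoluteValue.real 1 ≤ Rat.AbsoluteValue.real (q ^ 2 - (-1)) := by
      simp only [Rat.AbsoluteValue.real_eq_abs]
      have : (0 : ℚ) ≤ q ^ 2 := sq_nonneg q
      have h2 : |(q ^ 2 - (-1) : ℚ)| = q ^ 2 + 1 := by
        rw [abs_of_nonneg] <;> linarith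
      rw [h2]
      push_cast
      simp
      exact_mod_cast this
    have h2 := (h 1 (q ^ 2 - (-1))).mpr h1
    rw [hf, hf] at h2
    simpa using h2
  · have hp' : (p : ℚ) ≠ 0 := by
      exact_mod_cast hp.out.ne_zero
    refine ⟨(p : ℚ), hp', ‖σ (p : ℚ)‖, ?_, key _ _ (fun q => ?_)⟩
    · rw [norm_pos_iff]
      intro h0
      exact hp' ((map_eq_zero σ).mp h0)
    · have h1 : Rat.AbsoluteValue.padic p (p : ℚ) ≤ Rat.AbsoluteValue.padic p (q ^ 2 - (p : ℚ)) := by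
        simp only [Rat.AbsoluteValue.padic_eq_padicNorm]
        have hne : padicNorm p (q ^ 2) ≠ padicNorm p (-(p : ℚ)) := by
          rw [padicNorm.neg]
          by_cases hq : q = 0
          · subst hq
            simp only [ne_eq, OfNat.ofNat_ne_zero, not_false_eq_true, zero_pow, padicNorm.zero]
            intro h0
            exact hp' (padicNorm.zero_of_padicNorm_eq_zero h0.symm)
          · rw [sq, padicNorm.mul, padicNorm.padicNorm_p_of_prime, padicNorm.eq_zpow_of_nonzero hq,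
              ← zpow_add₀ hp', ← zpow_neg_one]
            intro h0
            have := zpow_right_injective₀ (a := (p : ℚ)) (by exact_mod_cast hp.out.pos)
              (by exact_mod_cast hp.out.one_lt.ne') h0
            omega
        have h3 := padicNorm.add_eq_max_of_ne hne
        rw [← sub_eq_add_neg, padicNorm.neg] at h3
        rw [h3]
        exact_mod_cast le_max_right _ _
      exact (h _ _).mpr h1

/-- Anisotropy of `a ^ 2 - α b ^ 2`, quantitative form. -/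
theorem aniso_bound {L : Type*} [NontriviallyNormedField L] {a : L} {δ : ℝ} (hδ : 0 < δ)
    (h : ∀ z : L, δ ≤ ‖z ^ 2 - a‖) :
    ∃ κ : ℝ, 0 < κ ∧ ∀ p q : L, κ * ‖p‖ ^ 2 ≤ ‖p ^ 2 - a * q ^ 2‖ ∧
      κ * ‖q‖ ^ 2 ≤ ‖p ^ 2 - a * q ^ 2‖ := by
  have h1 : ∀ p q : L, δ * ‖q‖ ^ 2 ≤ ‖p ^ 2 - a * q ^ 2‖ := by
    intro p q
    by_cases hq : q = 0
    · subst hq; simp
    · have := h (p / q)
      have h2 : p ^ 2 - a * q ^ 2 = ((p / q) ^ 2 - a) * q ^ 2 := by
        field_simp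
      rw [h2, norm_mul, norm_pow]
      exact mul_le_mul_of_nonneg_right this (by positivity)
  have h2 : ∀ p q : L, ‖p‖ ^ 2 ≤ (1 + ‖a‖ / δ) * ‖p ^ 2 - a * q ^ 2‖ := by
    intro p q
    have h3 : ‖p‖ ^ 2 ≤ ‖p ^ 2 - a * q ^ 2‖ + ‖a‖ * ‖q‖ ^ 2 := by
      calc ‖p‖ ^ 2 = ‖(p ^ 2 - a * q ^ 2) + a * q ^ 2‖ := by rw [sub_add_cancel, norm_pow]
        _ ≤ ‖p ^ 2 - a * q ^ 2‖ + ‖a * q ^ 2‖ := norm_add_le _ _
        _ = ‖p ^ 2 - a * q ^ 2‖ + ‖a‖ * ‖q‖ ^ 2 := by rw [norm_mul, norm_pow]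
    have h4 : ‖a‖ * ‖q‖ ^ 2 ≤ ‖a‖ / δ * ‖p ^ 2 - a * q ^ 2‖ := by
      have := h1 p q
      calc ‖a‖ * ‖q‖ ^ 2 = ‖a‖ / δ * (δ * ‖q‖ ^ 2) := by field_simp
        _ ≤ ‖a‖ / δ * ‖p ^ 2 - a * q ^ 2‖ := mul_le_mul_of_nonneg_left this (by positivity)
    linarith
  have hc : 0 < 1 + ‖a‖ / δ := by positivity
  refine ⟨min δ (1 + ‖a‖ / δ)⁻¹, lt_min hδ (inv_pos.mpr hc), fun p q => ⟨?_, ?_⟩⟩
  · calc min δ (1 + ‖a‖ / δ)⁻¹ * ‖p‖ ^ 2 ≤ (1 + ‖a‖ / δ)⁻¹ * ‖p‖ ^ 2 :=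
        mul_le_mul_of_nonneg_right (min_le_right _ _) (by positivity)
      _ ≤ (1 + ‖a‖ / δ)⁻¹ * ((1 + ‖a‖ / δ) * ‖p ^ 2 - a * q ^ 2‖) :=
        mul_le_mul_of_nonneg_left (h2 p q) (by positivity)
      _ = ‖p ^ 2 - a * q ^ 2‖ := by field_simp
  · calc min δ (1 + ‖a‖ / δ)⁻¹ * ‖q‖ ^ 2 ≤ δ * ‖q‖ ^ 2 :=
        mul_le_mul_of_nonneg_right (min_le_left _ _) (by positivity)
      _ ≤ _ := h1 p q

theorem aniso_zero {L : Type*} [NontriviallyNormedField L] {a : L} {δ : ℝ} (hδ : 0 < δ)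
    (h : ∀ z : L, δ ≤ ‖z ^ 2 - a‖) {p q : L} (h0 : p ^ 2 - a * q ^ 2 = 0) : p = 0 ∧ q = 0 := by
  obtain ⟨κ, hκ, hb⟩ := aniso_bound hδ h
  have := hb p q
  rw [h0, norm_zero] at this
  constructor
  · by_contra hp
    have : 0 < κ * ‖p‖ ^ 2 := mul_pos hκ (pow_pos (norm_pos_iff.mpr hp) 2)
    linarith [(hb p q).1, this, h0 ▸ (norm_zero (E := L))]
  · by_contra hp
    have : 0 < κ * ‖q‖ ^ 2 := mul_pos hκ (pow_pos (norm_pos_iff.mpr hp) 2)
    linarith [(hb p q).2, this, h0 ▸ (norm_zero (E := L))]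

section Combine

variable {ι : Type*} {L : Type*} [NontriviallyNormedField L] (σ : ℚ →+* L)

/-- A finite set of homogeneous polynomials has the same zeros over `L` as a single homogeneous
polynomial of positive degree. -/
theorem exists_single {α : ℚ} {δ : ℝ} (hδ : 0 < δ) (h : ∀ z : L, δ ≤ ‖z ^ 2 - σ α‖)
    (T : Finset (MvPolynomial ι ℚ)) (hT : ∀ g ∈ T, ∃ d, 0 < d ∧ g.IsHomogeneous d) :
    ∃ (u : MvPolynomial ι ℚ) (m : ℕ), 0 < m ∧ u.IsHomogeneous m ∧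
      ∀ x : ι → L, eval₂ σ x u = 0 ↔ ∀ g ∈ T, eval₂ σ x g = 0 := by
  classical
  induction T using Finset.induction_on with
  | empty => exact ⟨0, 1, one_pos, isHomogeneous_zero _ _ _, fun x => by simp⟩
  | insert g T hg ih =>
    obtain ⟨u, m, hm, hu, hx⟩ := ih (fun g' hg' => hT g' (Finset.mem_insert_of_mem hg'))
    obtain ⟨d, hd, hgd⟩ := hT g (Finset.mem_insert_self _ _)
    refine ⟨(u ^ d) ^ 2 - C α * (g ^ m) ^ 2, m * d * 2, by positivity, ?_, ?_⟩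
    · refine ((hu.pow d).pow 2).sub ?_
      have h1 : ((g ^ m) ^ 2).IsHomogeneous (m * d * 2) := by
        have := (hgd.pow m).pow 2
        rwa [mul_comm d m] at this
      have h2 := (isHomogeneous_C ι α).mul h1
      rwa [zero_add] at h2
    · intro x
      simp only [eval₂_sub, eval₂_mul, eval₂_pow, eval₂_C, Finset.mem_insert, forall_eq_or_imp]
      constructor
      · intro h0
        obtain ⟨h1, h2⟩ := aniso_zero hδ h h0
        exact ⟨eq_zero_of_pow_eq_zero h2, (hx x).mp (eq_zero_of_pow_eq_zero h1)⟩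
      · rintro ⟨h1, h2⟩
        rw [(hx x).mpr h2, h1, zero_pow hd.ne', zero_pow hm.ne']
        simp

/-- The same for an arbitrary set of homogeneous polynomials without nonzero constants. -/
theorem exists_single_set [Finite ι] {α : ℚ} {δ : ℝ} (hδ : 0 < δ)
    (h : ∀ z : L, δ ≤ ‖z ^ 2 - σ α‖)
    (S : Set (MvPolynomial ι ℚ)) (hS : ∀ g ∈ S, ∃ d, g.IsHomogeneous d)
    (hS0 : ∀ g ∈ S, g.IsHomogeneous 0 → g = 0) :
    ∃ (u : MvPolynomial ι ℚ) (m : ℕ), 0 < m ∧ u.IsHomogeneous m ∧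
      ∀ x : ι → L, eval₂ σ x u = 0 ↔ ∀ g ∈ S, eval₂ σ x g = 0 := by
  classical
  have hfg : (Ideal.span S).FG := IsNoetherian.noetherian _
  obtain ⟨T, hTS, hT⟩ := (Submodule.fg_span_iff_fg_span_finset_subset S).mp hfg
  obtain ⟨u, m, hm, hu, hx⟩ := exists_single σ hδ h T (fun g hg => by
    obtain ⟨d, hd⟩ := hS g (hTS hg)
    rcases Nat.eq_zero_or_pos d with h0 | h0
    · subst h0
      rw [hS0 g (hTS hg) hd]
      exact ⟨1, one_pos, isHomogeneous_zero _ _ _⟩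
    · exact ⟨d, h0, hd⟩)
  refine ⟨u, m, hm, hu, fun x => (hx x).trans ⟨fun h1 g hg => ?_, fun h1 g hg => h1 g (hTS hg)⟩⟩
  have hmem : g ∈ Ideal.span (↑T : Set (MvPolynomial ι ℚ)) := by
    have : g ∈ Ideal.span S := Ideal.subset_span hg
    change g ∈ Submodule.span _ _ at this
    rw [hT] at this
    exact this
  have hle : Ideal.span (↑T : Set (MvPolynomial ι ℚ)) ≤ RingHom.ker (eval₂Hom σ x) := by
    rw [Ideal.span_le]
    intro g' hg'
    exact h1 g' hg'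
  exact hle hmem

end Combine

end Pool.Agent.MazurZ
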