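import Mathlib

set_option autoImplicit false

namespace Pool.Agent.MazurZ

open MvPolynomial

/-- The polynomials vanishing at all multiples of the `K`-points of the projective algebraic set
defined by `S` which lie in some neighbourhood of the `L`-point `x`; this is the homogeneous ideal
of the set `Z_x` of Mazur's question. -/
def localIdeal {K L ι : Type*} [Field K] [NontriviallyNormedField L] (σ : K →+* L)
    (S : Set (MvPolynomial ι K)) (x : ι → L) : Set (MvPolynomial ι K) :=
  {f | ∃ U ∈ nhds x, ∀ y : ι → K, y ≠ 0 → (∀ g ∈ S, eval y g = 0) →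
    (∃ c : L, c ≠ 0 ∧ (fun i => c * σ (y i)) ∈ U) → ∀ t : K, eval (t • y) f = 0}

/-- The family of all `localIdeal σ S x`, `x` an `L`-point of the projective algebraic set
defined by `S`. -/
def localIdeals {K L ι : Type*} [Field K] [NontriviallyNormedField L] (σ : K →+* L)
    (S : Set (MvPolynomial ι K)) : Set (Set (MvPolynomial ι K)) :=
  {J | ∃ x : ι → L, x ≠ 0 ∧ (∀ g ∈ S, eval₂ σ x g = 0) ∧ J = localIdeal σ S x}

/-- The polynomial `t A - B` in the variables indexed by `Fin (N + 2)`, where `A` and `B` involve
the first `N + 1` variables and `t` is the last variable. -/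
noncomputable def monoidFin {N : ℕ} (A B : MvPolynomial (Fin (N + 1)) ℚ) :
    MvPolynomial (Fin (N + 2)) ℚ :=
  X (Fin.last (N + 1)) * rename Fin.castSucc A - rename Fin.castSucc B

end Pool.Agent.MazurZ
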