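import Mathlib
import Pool.Agent.MazurZ.Aniso
import Pool.Agent.MazurZ.Defs

set_option autoImplicit false

namespace Pool.Agent.MazurZ

open MvPolynomial

variable {K L : Type*} [Field K] [NontriviallyNormedField L] (σ : K →+* L)

/-- Invariance under renaming the variables. -/
theorem finite_rename {ι κ : Type*} (e : ι ≃ κ) (S : Set (MvPolynomial ι K))
    (h : (localIdeals σ (rename e '' S)).Finite) : (localIdeals σ S).Finite := by
  refine (h.image (fun J => rename e ⁻¹' J)).subset ?_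
  rintro _ ⟨x, hx0, hxS, rfl⟩
  refine ⟨localIdeal σ (rename e '' S) (x ∘ e.symm), ⟨x ∘ e.symm, ?_, ?_, rfl⟩, ?_⟩
  · intro h0
    apply hx0
    funext i
    have := congrFun h0 (e i)
    simpa using this
  · rintro _ ⟨g, hg, rfl⟩
    rw [eval₂_rename]
    have : (x ∘ e.symm) ∘ e = x := by funext i; simp
    rw [this]
    exact hxS g hg
  · ext f
    constructor
    · rintro ⟨U, hU, hf⟩
      refine ⟨(fun z : ι → L => z ∘ e.symm) ⁻¹' U, ?_, ?_⟩
      · have hc : Continuous (fun z : ι → L => z ∘ e.symm) := by fun_prop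
        exact hc.continuousAt.preimage_mem_nhds hU
      · intro y hy hyS hc t
        have hye : (y ∘ e.symm) ∘ e = y := by funext i; simp
        have h1 := hf (y ∘ e.symm) (fun h0 => hy (by
          rw [← hye, h0]; rfl)) (by
            rintro _ ⟨g, hg, rfl⟩
            rw [eval_rename, hye]
            exact hyS g hg) hc t
        rw [eval_rename] at h1
        have h2 : (t • (y ∘ e.symm)) ∘ e = t • y := by funext i; simp
        rwa [h2] at h1
    · rintro ⟨U, hU, hf⟩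
      refine ⟨(fun z : κ → L => z ∘ e) ⁻¹' U, ?_, ?_⟩
      · have hc : Continuous (fun z : κ → L => z ∘ e) := by fun_prop
        refine hc.continuousAt.preimage_mem_nhds ?_
        have : (x ∘ e.symm) ∘ e = x := by funext i; simp
        rw [this]
        exact hU
      · intro y hy hyS hc t
        rw [eval_rename]
        have h2 : (t • y) ∘ e = t • (y ∘ e) := by funext i; simp
        rw [h2]
        refine hf (y ∘ e) (fun h0 => hy ?_) (fun g hg => ?_) hc t
        · funext k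
          have := congrFun h0 (e.symm k)
          simpa using this
        · have := hyS _ ⟨g, hg, rfl⟩
          rwa [eval_rename] at this

theorem eval₂_smul_hom {ι R T : Type*} [CommRing R] [CommRing T] (τ : R →+* T)
    {g : MvPolynomial ι R} {d : ℕ} (hg : g.IsHomogeneous d) (c : T) (x : ι → T) :
    eval₂ τ (fun i => c * x i) g = c ^ d * eval₂ τ x g := by
  rw [eval₂_eq, eval₂_eq, Finset.mul_sum]
  refine Finset.sum_congr rfl (fun e he => ?_)
  have hdeg : ∑ i ∈ e.support, e i = d := by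
    have := hg (mem_support_iff.mp he)
    rwa [Finsupp.weight_apply, Finsupp.sum] at this
    |> fun h => by simpa using h
  simp only [mul_pow, Finset.prod_mul_distrib]
  rw [Finset.prod_pow_eq_pow_sum, hdeg]
  ring

theorem eval₂_zero_hom {ι R T : Type*} [CommRing R] [CommRing T] (τ : R →+* T)
    {g : MvPolynomial ι R} {d : ℕ} (hg : g.IsHomogeneous d) (hd : 0 < d) :
    eval₂ τ (fun _ : ι => (0 : T)) g = 0 := by
  have := eval₂_smul_hom τ hg 0 (fun _ : ι => (0 : T))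
  rw [zero_pow hd.ne', zero_mul] at this
  simpa using this

section MonoidConstruction

variable {ι : Type*} (u : MvPolynomial ι ℚ) (m : ℕ) (α : ℚ)

/-- `p = u ^ 2 - α s ^ (2 m)` -/
noncomputable def pPol : MvPolynomial (ι ⊕ Fin 2) ℚ :=
  (rename Sum.inl u) ^ 2 - C α * (X (Sum.inr 0)) ^ (2 * m)

/-- `p ^ 2 - b r ^ (4 m)` -/
noncomputable def wPol (b : ℚ) : MvPolynomial (ι ⊕ Fin 2) ℚ :=
  (pPol u m α) ^ 2 - C b * (X (Sum.inr 1)) ^ (4 * m)

theorem pPol_homogeneous (hu : u.IsHomogeneous m) : (pPol u m α).IsHomogeneous (2 * m) := by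
  refine IsHomogeneous.sub ?_ ?_
  · have := (hu.rename_isHomogeneous (f := (Sum.inl : ι → ι ⊕ Fin 2))).pow 2
    rwa [mul_comm] at this
  · have h1 := (isHomogeneous_X (R := ℚ) (Sum.inr 0 : ι ⊕ Fin 2)).pow (2 * m)
    rw [one_mul] at h1
    have h2 := (isHomogeneous_C (ι ⊕ Fin 2) α).mul h1
    rwa [zero_add] at h2

theorem wPol_homogeneous (hu : u.IsHomogeneous m) (b : ℚ) :
    (wPol u m α b).IsHomogeneous (4 * m) := by
  refine IsHomogeneous.sub ?_ ?_
  · have := (pPol_homogeneous u m α hu).pow 2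
    have h : 2 * m * 2 = 4 * m := by ring
    rwa [h] at this
  · have h1 := (isHomogeneous_X (R := ℚ) (Sum.inr 1 : ι ⊕ Fin 2)).pow (4 * m)
    rw [one_mul] at h1
    have h2 := (isHomogeneous_C (ι ⊕ Fin 2) b).mul h1
    rwa [zero_add] at h2

theorem eval_pPol {R : Type*} [CommRing R] (τ : ℚ →+* R) (x : ι ⊕ Fin 2 → R) :
    eval₂ τ x (pPol u m α) =
      (eval₂ τ (x ∘ Sum.inl) u) ^ 2 - τ α * (x (Sum.inr 0)) ^ (2 * m) := by
  simp [pPol, eval₂_rename, eval₂_sub, eval₂_mul, eval₂_pow]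

theorem eval_wPol {R : Type*} [CommRing R] (τ : ℚ →+* R) (x : ι ⊕ Fin 2 → R) (b : ℚ) :
    eval₂ τ x (wPol u m α b) =
      (eval₂ τ x (pPol u m α)) ^ 2 - τ b * (x (Sum.inr 1)) ^ (4 * m) := by
  simp [wPol, eval₂_sub, eval₂_mul, eval₂_pow]

theorem pPol_ne_zero (hu : u.IsHomogeneous m) (hm : 0 < m) (_hα : α ≠ 0) :
    eval (Sum.elim (fun _ => (0 : ℚ)) (fun k : Fin 2 => if k = 0 then 1 else 0)) (pPol u m α) =
      - α := by
  have h1 := eval_pPol u m α (RingHom.id ℚ)
    (Sum.elim (fun _ : ι => (0 : ℚ)) (fun k : Fin 2 => if k = 0 then 1 else 0))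
  have h2 : eval₂ (RingHom.id ℚ) ((Sum.elim (fun _ : ι => (0 : ℚ))
      (fun k : Fin 2 => if k = 0 then (1 : ℚ) else 0)) ∘ Sum.inl) u = 0 :=
    eval₂_zero_hom (RingHom.id ℚ) hu hm
  rw [h2] at h1
  change eval₂ (RingHom.id ℚ) _ _ = _
  rw [h1]
  simp only [Sum.elim_inr, if_true, one_pow, mul_one, RingHom.id_apply]
  ring

theorem wPol_eval_s (hu : u.IsHomogeneous m) (hm : 0 < m) (hα : α ≠ 0) (b : ℚ) :
    eval (Sum.elim (fun _ => (0 : ℚ)) (fun k : Fin 2 => if k = 0 then 1 else 0)) (wPol u m α b) =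
      α ^ 2 := by
  have h1 := eval_wPol u m α (RingHom.id ℚ)
    (Sum.elim (fun _ : ι => (0 : ℚ)) (fun k : Fin 2 => if k = 0 then 1 else 0)) b
  have h2 := pPol_ne_zero u m α hu hm hα
  change eval₂ (RingHom.id ℚ) _ _ = _ at h2
  rw [h2] at h1
  change eval₂ (RingHom.id ℚ) _ _ = _
  rw [h1]
  have h4 : 4 * m ≠ 0 := by omega
  simp [h4]

theorem wPol_eval_r (hu : u.IsHomogeneous m) (hm : 0 < m) (b : ℚ) :
    eval (Sum.elim (fun _ => (0 : ℚ)) (fun k : Fin 2 => if k = 1 then 1 else 0)) (wPol u m α b) =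
      - b := by
  have h1 := eval_wPol u m α (RingHom.id ℚ)
    (Sum.elim (fun _ : ι => (0 : ℚ)) (fun k : Fin 2 => if k = 1 then 1 else 0)) b
  rw [eval_pPol] at h1
  have h2 : eval₂ (RingHom.id ℚ) ((Sum.elim (fun _ : ι => (0 : ℚ))
      (fun k : Fin 2 => if k = 1 then (1 : ℚ) else 0)) ∘ Sum.inl) u = 0 :=
    eval₂_zero_hom (RingHom.id ℚ) hu hm
  rw [h2] at h1
  change eval₂ (RingHom.id ℚ) _ _ = _
  rw [h1]
  have h4 : 2 * m ≠ 0 := by omega
  simp [h4]

theorem isRelPrime_w (hu : u.IsHomogeneous m) (hm : 0 < m) (hα : α ≠ 0) :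
    IsRelPrime (wPol u m α (4 * α)) (wPol u m α α) := by
  have hr : IsRelPrime (wPol u m α (4 * α)) (X (Sum.inr 1) ^ (4 * m)) := by
    refine IsRelPrime.pow_right ?_
    rw [isRelPrime_comm, (X_prime (R := ℚ) (i := (Sum.inr 1 : ι ⊕ Fin 2))).irreducible.isRelPrime_iff_not_dvd]
    rintro ⟨q, hq⟩
    have h1 := wPol_eval_s u m α hu hm hα (4 * α)
    rw [hq] at h1
    simp at h1
    exact hα ((pow_eq_zero_iff two_ne_zero).mp h1.symm)
  intro d h1 h2
  have h3 : d ∣ wPol u m α α - wPol u m α (4 * α) := dvd_sub h2 h1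
  have h4 : wPol u m α α - wPol u m α (4 * α) = C (3 * α) * X (Sum.inr 1) ^ (4 * m) := by
    simp only [wPol, map_mul]
    have : (C (4 : ℚ) : MvPolynomial (ι ⊕ Fin 2) ℚ) = 4 := by
      rw [show (4 : ℚ) = ((4 : ℕ) : ℚ) by norm_num, map_natCast]; norm_num
    have h3' : (C (3 : ℚ) : MvPolynomial (ι ⊕ Fin 2) ℚ) = 3 := by
      rw [show (3 : ℚ) = ((3 : ℕ) : ℚ) by norm_num, map_natCast]; norm_num
    rw [this, h3']
    ring
  rw [h4] at h3
  have hunit : IsUnit (C (3 * α) : MvPolynomial (ι ⊕ Fin 2) ℚ) := by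
    refine IsUnit.map C ?_
    rw [isUnit_iff_ne_zero]
    exact mul_ne_zero (by norm_num) hα
  rw [hunit.dvd_mul_left] at h3
  exact hr h1 h3

theorem isRelPrime_AB (hu : u.IsHomogeneous m) (hm : 0 < m) (hα : α ≠ 0) (i : ι) (k : ℕ) :
    IsRelPrime ((wPol u m α (4 * α)) ^ 2) (X (Sum.inl i) ^ k * wPol u m α α) := by
  refine IsRelPrime.pow_left (IsRelPrime.mul_right (IsRelPrime.pow_right ?_)
    (isRelPrime_w u m α hu hm hα))
  rw [isRelPrime_comm, (X_prime (R := ℚ) (i := (Sum.inl i : ι ⊕ Fin 2))).irreducible.isRelPrime_iff_not_dvd]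
  rintro ⟨q, hq⟩
  have h1 := wPol_eval_r u m α hu hm (4 * α)
  rw [hq] at h1
  simp at h1
  exact hα h1

end MonoidConstruction

/-- The monoid hypersurface polynomial `t A - B`. -/
noncomputable def monoidPoly {κ : Type*} (A B : MvPolynomial κ ℚ) : MvPolynomial (Option κ) ℚ :=
  X none * rename some A - rename some B

theorem monoidPoly_homogeneous {κ : Type*} {A B : MvPolynomial κ ℚ} {D : ℕ}
    (hA : A.IsHomogeneous D) (hB : B.IsHomogeneous (D + 1)) :
    (monoidPoly A B).IsHomogeneous (D + 1) := by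
  refine IsHomogeneous.sub ?_ hB.rename_isHomogeneous
  have := (isHomogeneous_X (R := ℚ) (none : Option κ)).mul
    (hA.rename_isHomogeneous (f := (some : κ → Option κ)))
  rwa [add_comm] at this

theorem eval_monoidPoly {κ R : Type*} [CommRing R] (τ : ℚ →+* R) (A B : MvPolynomial κ ℚ)
    (z : Option κ → R) : eval₂ τ z (monoidPoly A B) =
      z none * eval₂ τ (z ∘ some) A - eval₂ τ (z ∘ some) B := by
  simp [monoidPoly, eval₂_rename, eval₂_sub, eval₂_mul]

/-- extension of a vector by zeros -/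
def ext0 {ι R : Type*} [Zero R] (x : ι → R) : Option (ι ⊕ Fin 2) → R
  | none => 0
  | some (Sum.inl j) => x j
  | some (Sum.inr _) => 0

theorem continuous_ext0 {ι L : Type*} [TopologicalSpace L] [Zero L] :
    Continuous (ext0 : (ι → L) → Option (ι ⊕ Fin 2) → L) := by
  refine continuous_pi (fun j => ?_)
  match j with
  | none => exact continuous_const
  | some (Sum.inl j) => exact continuous_apply j
  | some (Sum.inr _) => exact continuous_const

section Main

variable {ι : Type*} {L : Type*} [NontriviallyNormedField L] {σ : ℚ →+* L}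
variable {u : MvPolynomial ι ℚ} {m : ℕ} {α : ℚ} {δ : ℝ}

theorem eval_w_zero {R : Type*} [CommRing R] [NoZeroDivisors R] [Nontrivial R] (τ : ℚ →+* R)
    (hm : 0 < m) (x : ι → R) (hx : eval₂ τ x u = 0) (b : ℚ) :
    eval₂ τ (ext0 x ∘ some) (wPol u m α b) = 0 := by
  rw [eval_wPol, eval_pPol]
  have h1 : (ext0 x ∘ some) ∘ Sum.inl = x := rfl
  have h2 : (ext0 x ∘ some) (Sum.inr 0 : ι ⊕ Fin 2) = 0 := rfl
  have h3 : (ext0 x ∘ some) (Sum.inr 1 : ι ⊕ Fin 2) = 0 := rfl
  rw [h1, h2, h3, hx, zero_pow (by omega), zero_pow (by omega), zero_pow (by omega)]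
  ring

/-- key geometric property -/
theorem near_zero (hδ : 0 < δ) (h : ∀ z : L, δ ≤ ‖z ^ 2 - σ α‖) (i : ι) (k : ℕ)
    (x : ι → L) (hxi : x i ≠ 0) :
    ∃ V ∈ nhds (ext0 x), ∀ z ∈ V, eval₂ σ z
      (monoidPoly ((wPol u m α (4 * α)) ^ 2) (X (Sum.inl i) ^ k * wPol u m α α)) = 0 →
      z (some (Sum.inl i)) ≠ 0 ∧ eval₂ σ (z ∘ some ∘ Sum.inl) u = 0 ∧
        z (some (Sum.inr 0)) = 0 ∧ z (some (Sum.inr 1)) = 0 := by
  obtain ⟨κ, hκ, hb⟩ := aniso_bound hδ h
  -- comparison constant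
  let C0 : ℝ := (1 + ‖σ (4 * α)‖) / κ
  have hC0 : 0 < C0 := by positivity
  have hcomp : ∀ v : ι ⊕ Fin 2 → L,
      ‖eval₂ σ v (wPol u m α (4 * α))‖ ≤ C0 * ‖eval₂ σ v (wPol u m α α)‖ := by
    intro v
    have h1 := hb (eval₂ σ v (pPol u m α)) (v (Sum.inr 1) ^ (2 * m))
    have h2 : eval₂ σ v (wPol u m α α) =
        (eval₂ σ v (pPol u m α)) ^ 2 - σ α * (v (Sum.inr 1) ^ (2 * m)) ^ 2 := by
      rw [eval_wPol, ← pow_mul]; ring_nf
    rw [← h2] at h1
    have h3 : ‖eval₂ σ v (wPol u m α (4 * α))‖ ≤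
        ‖eval₂ σ v (pPol u m α)‖ ^ 2 + ‖σ (4 * α)‖ * ‖v (Sum.inr 1) ^ (2 * m)‖ ^ 2 := by
      rw [eval_wPol]
      refine (norm_sub_le _ _).trans ?_
      rw [norm_pow, norm_mul, norm_pow, norm_pow, ← pow_mul]
      have : 2 * m * 2 = 4 * m := by ring
      rw [this]
    have h4 : C0 * ‖eval₂ σ v (wPol u m α α)‖ =
        (‖eval₂ σ v (wPol u m α α)‖ / κ) + ‖σ (4 * α)‖ * (‖eval₂ σ v (wPol u m α α)‖ / κ) := by
      simp only [C0]; field_simp
    rw [h4]
    refine h3.trans (add_le_add ?_ (mul_le_mul_of_nonneg_left ?_ (norm_nonneg _)))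
    · rw [le_div_iff₀ hκ, mul_comm]; exact h1.1
    · rw [le_div_iff₀ hκ, mul_comm]; exact h1.2
  -- the neighbourhood
  let V : Set (Option (ι ⊕ Fin 2) → L) :=
    {z | C0 * (‖z none‖ * ‖eval₂ σ (z ∘ some) (wPol u m α (4 * α))‖) <
      ‖z (some (Sum.inl i))‖ ^ k ∧ z (some (Sum.inl i)) ≠ 0}
  have hcont : Continuous (fun z : Option (ι ⊕ Fin 2) → L =>
      eval₂ σ (z ∘ some) (wPol u m α (4 * α))) := by
    have : (fun z : Option (ι ⊕ Fin 2) → L => eval₂ σ (z ∘ some) (wPol u m α (4 * α))) =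
        fun z => eval (z ∘ some) (map σ (wPol u m α (4 * α))) := by
      funext z; rw [eval_map]
    rw [this]
    exact (MvPolynomial.continuous_eval _).comp (by fun_prop)
  have hV : V ∈ nhds (ext0 x) := by
    refine IsOpen.mem_nhds ?_ ?_
    · have hV1 : IsOpen {z : Option (ι ⊕ Fin 2) → L |
          C0 * (‖z none‖ * ‖eval₂ σ (z ∘ some) (wPol u m α (4 * α))‖) <
            ‖z (some (Sum.inl i))‖ ^ k} := isOpen_lt
        (continuous_const.mul ((continuous_apply none).norm.mul hcont.norm))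
        (((continuous_apply _).norm).pow k)
      have hV2 : IsOpen {z : Option (ι ⊕ Fin 2) → L | z (some (Sum.inl i)) ≠ 0} :=
        isOpen_ne.preimage (continuous_apply _)
      exact hV1.inter hV2
    · refine ⟨?_, hxi⟩
      change C0 * (‖(0 : L)‖ * _) < ‖x i‖ ^ k
      rw [norm_zero, zero_mul, mul_zero]
      exact pow_pos (norm_pos_iff.mpr hxi) k
  refine ⟨V, hV, fun z hz h0 => ⟨hz.2, ?_⟩⟩
  rw [eval_monoidPoly] at h0
  simp only [eval₂_pow, eval₂_mul, eval₂_X] at h0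
  have hz1 := hz.1
  -- w' vanishes
  have hw' : eval₂ σ (z ∘ some) (wPol u m α (4 * α)) = 0 := by
    by_contra hne
    have hpos : 0 < ‖eval₂ σ (z ∘ some) (wPol u m α (4 * α))‖ := norm_pos_iff.mpr hne
    have h1 : z none * (eval₂ σ (z ∘ some) (wPol u m α (4 * α))) ^ 2 =
        (z ∘ some) (Sum.inl i) ^ k * eval₂ σ (z ∘ some) (wPol u m α α) := sub_eq_zero.mp h0
    have h2 := congrArg norm h1
    rw [norm_mul, norm_mul, norm_pow, norm_pow] at h2
    have h3 := hcomp (z ∘ some)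
    have h5 : ‖z (some (Sum.inl i))‖ ^ k * ‖eval₂ σ (z ∘ some) (wPol u m α (4 * α))‖ ≤
        C0 * (‖z none‖ * ‖eval₂ σ (z ∘ some) (wPol u m α (4 * α))‖) *
          ‖eval₂ σ (z ∘ some) (wPol u m α (4 * α))‖ := by
      calc ‖z (some (Sum.inl i))‖ ^ k * ‖eval₂ σ (z ∘ some) (wPol u m α (4 * α))‖
          ≤ ‖z (some (Sum.inl i))‖ ^ k * (C0 * ‖eval₂ σ (z ∘ some) (wPol u m α α)‖) :=
            mul_le_mul_of_nonneg_left h3 (by positivity)
        _ = C0 * (‖(z ∘ some) (Sum.inl i)‖ ^ k * ‖eval₂ σ (z ∘ some) (wPol u m α α)‖) := by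
            simp only [Function.comp_apply]; ring
        _ = C0 * (‖z none‖ * ‖eval₂ σ (z ∘ some) (wPol u m α (4 * α))‖ ^ 2) := by rw [← h2]
        _ = _ := by ring
    have h6 := le_of_mul_le_mul_right h5 hpos
    exact absurd hz1 (not_lt.mpr h6)
  -- conclusion
  have h2ne : (σ 2 : L) ≠ 0 := by
    intro hh
    have := (map_eq_zero σ).mp hh
    norm_num at this
  have h7 : (eval₂ σ (z ∘ some) (pPol u m α)) ^ 2 -
      σ α * (σ 2 * ((z ∘ some) (Sum.inr 1)) ^ (2 * m)) ^ 2 = 0 := by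
    rw [← hw', eval_wPol, map_mul, mul_pow, ← pow_mul, ← map_pow]
    have h8 : ((2 : ℚ)) ^ 2 = 4 := by norm_num
    rw [h8]
    have : 2 * m * 2 = 4 * m := by ring
    rw [this]; ring
  obtain ⟨hp0, hq0⟩ := aniso_zero hδ h h7
  have hr : (z ∘ some) (Sum.inr 1) = 0 := by
    rcases mul_eq_zero.mp hq0 with hh | hh
    · exact absurd hh h2ne
    · exact eq_zero_of_pow_eq_zero hh
  rw [eval_pPol] at hp0
  have h9 : (eval₂ σ ((z ∘ some) ∘ Sum.inl) u) ^ 2 -
      σ α * (((z ∘ some) (Sum.inr 0)) ^ m) ^ 2 = 0 := by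
    rw [← hp0, ← pow_mul, mul_comm m 2]
  obtain ⟨h10, h11⟩ := aniso_zero hδ h h9
  exact ⟨h10, eq_zero_of_pow_eq_zero h11, hr⟩

/-- The relation between the ideals of `S` and those of the monoid. -/
theorem localIdeal_monoid [Finite ι] (hδ : 0 < δ) (h : ∀ z : L, δ ≤ ‖z ^ 2 - σ α‖) (hm : 0 < m)
    (S : Set (MvPolynomial ι ℚ)) (hS : ∀ g ∈ S, ∃ d, g.IsHomogeneous d)
    (huS : ∀ x : ι → L, eval₂ σ x u = 0 ↔ ∀ g ∈ S, eval₂ σ x g = 0)
    (i : ι) (k : ℕ) (x : ι → L) (hxi : x i ≠ 0) (hxu : eval₂ σ x u = 0)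
    (hmon : ∃ D, (monoidPoly ((wPol u m α (4 * α)) ^ 2)
        (X (Sum.inl i) ^ k * wPol u m α α)).IsHomogeneous D) :
    localIdeal σ S x = (rename (some ∘ Sum.inl : ι → Option (ι ⊕ Fin 2))) ⁻¹'
      (localIdeal σ {monoidPoly ((wPol u m α (4 * α)) ^ 2)
        (X (Sum.inl i) ^ k * wPol u m α α)} (ext0 x)) := by
  have heval : ∀ (y : ι → ℚ) (g : MvPolynomial ι ℚ),
      eval₂ σ (fun j => σ (y j)) g = σ (eval y g) := by
    intro y g
    have := eval₂_comp_left σ (RingHom.id ℚ) y g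
    rw [RingHom.comp_id] at this
    exact this.symm
  have heval' : ∀ (y : Option (ι ⊕ Fin 2) → ℚ) (g : MvPolynomial (Option (ι ⊕ Fin 2)) ℚ),
      eval₂ σ (fun j => σ (y j)) g = σ (eval y g) := by
    intro y g
    have := eval₂_comp_left σ (RingHom.id ℚ) y g
    rw [RingHom.comp_id] at this
    exact this.symm
  ext f
  constructor
  · rintro ⟨U, hU, hf⟩
    obtain ⟨V, hV, hVz⟩ := near_zero hδ h i k x hxi
    have hc : Continuous (fun z : Option (ι ⊕ Fin 2) → L => z ∘ some ∘ Sum.inl) := by fun_prop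
    refine ⟨V ∩ (fun z : Option (ι ⊕ Fin 2) → L => z ∘ some ∘ Sum.inl) ⁻¹' U,
      Filter.inter_mem hV (hc.continuousAt.preimage_mem_nhds hU), ?_⟩
    rintro y hy hyS ⟨c, hc0, hcV, hcU⟩ t
    have hy0 := hyS _ rfl
    have hz0 : eval₂ σ (fun j => c * σ (y j)) (monoidPoly ((wPol u m α (4 * α)) ^ 2)
        (X (Sum.inl i) ^ k * wPol u m α α)) = 0 := by
      obtain ⟨D, hD⟩ := hmon
      rw [eval₂_smul_hom σ hD c (fun j => σ (y j)), heval', hy0, map_zero, mul_zero]
    obtain ⟨h1, h2, h3, h4⟩ := hVz _ hcV hz0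
    have h5 := hf (y ∘ some ∘ Sum.inl) (fun h0 => h1 (by
      have := congrFun h0 i
      simp only [Function.comp_apply, Pi.zero_apply] at this
      simp [this])) (fun g hg => by
        obtain ⟨d, hd⟩ := hS g hg
        have h6 := (huS _).mp h2 g hg
        have h7 : ((fun j => c * σ (y j)) ∘ some ∘ Sum.inl : ι → L) =
            fun j => c * σ ((y ∘ some ∘ Sum.inl) j) := rfl
        rw [h7, eval₂_smul_hom σ hd c (fun j => σ ((y ∘ some ∘ Sum.inl) j)), heval] at h6
        rcases mul_eq_zero.mp h6 with h8 | h8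
        · exact absurd (eq_zero_of_pow_eq_zero h8) hc0
        · exact (map_eq_zero σ).mp h8) ⟨c, hc0, hcU⟩ t
    rw [eval_rename]
    exact h5
  · rintro ⟨U, hU, hf⟩
    refine ⟨ext0 ⁻¹' U, continuous_ext0.continuousAt.preimage_mem_nhds hU, ?_⟩
    rintro y hy hyS ⟨c, hc0, hcU⟩ t
    have huy : eval y u = 0 := by
      have h1 : eval₂ σ (fun j => σ (y j)) u = 0 := by
        rw [huS]
        intro g hg
        rw [heval, hyS g hg, map_zero]
      rw [heval] at h1
      exact (map_eq_zero σ).mp h1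
    have h1 := hf (ext0 y) (fun h0 => hy (by
      funext j
      exact congrFun h0 (some (Sum.inl j)))) (by
        rintro _ rfl
        have h2 := eval_monoidPoly (RingHom.id ℚ) ((wPol u m α (4 * α)) ^ 2)
          (X (Sum.inl i) ^ k * wPol u m α α) (ext0 y)
        change eval₂ (RingHom.id ℚ) _ _ = 0
        rw [h2, eval₂_mul, eval_w_zero (RingHom.id ℚ) hm y huy]
        change (0 : ℚ) * _ - _ * 0 = 0
        ring) ⟨c, hc0, by
          have : (fun j => c * σ (ext0 y j)) = ext0 (fun j => c * σ (y j)) := by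
            funext j
            match j with
            | none => simp [ext0]
            | some (Sum.inl j) => rfl
            | some (Sum.inr _) => simp [ext0]
          rw [this]
          exact hcU⟩ t
    rw [eval_rename] at h1
    exact h1

/-- Step 2 of the reduction. -/
theorem finite_of_monoids [Finite ι] (hσ : DenseRange σ)
    (H : ∀ (D : ℕ) (A B : MvPolynomial (ι ⊕ Fin 2) ℚ), A.IsHomogeneous D →
      B.IsHomogeneous (D + 1) → A ≠ 0 → IsRelPrime A B →
      (localIdeals σ {monoidPoly A B}).Finite)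
    (S : Set (MvPolynomial ι ℚ)) (hS : ∀ g ∈ S, ∃ d, g.IsHomogeneous d) :
    (localIdeals σ S).Finite := by
  classical
  by_cases hconst : ∃ g ∈ S, g.IsHomogeneous 0 ∧ g ≠ 0
  · -- no points at all
    obtain ⟨g, hg, hg0, hgne⟩ := hconst
    have : localIdeals σ S = ∅ := by
      rw [Set.eq_empty_iff_forall_notMem]
      rintro _ ⟨x, _, hx, _⟩
      have h1 := hx g hg
      obtain ⟨a, rfl⟩ : ∃ a, g = C a := ⟨coeff 0 g, (totalDegree_eq_zero_iff_eq_C).mp
        ((totalDegree_zero_iff_isHomogeneous _).mpr hg0)⟩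
      rw [eval₂_C] at h1
      apply hgne
      rw [(map_eq_zero σ).mp h1, map_zero]
    rw [this]
    exact Set.finite_empty
  · push Not at hconst
    obtain ⟨α, hα, δ, hδ, h⟩ := exists_nonsquare σ hσ
    obtain ⟨u, m, hm, hu, huS⟩ := exists_single_set σ hδ h S hS (fun g hg hg0 => hconst g hg hg0)
    have hA : ((wPol u m α (4 * α)) ^ 2).IsHomogeneous (4 * m * 2) :=
      (wPol_homogeneous u m α hu _).pow 2
    have hB : ∀ i : ι, (X (Sum.inl i) ^ (4 * m + 1) * wPol u m α α).IsHomogeneous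
        (4 * m * 2 + 1) := by
      intro i
      have h1 := ((isHomogeneous_X (R := ℚ) (Sum.inl i : ι ⊕ Fin 2)).pow (4 * m + 1)).mul
        (wPol_homogeneous u m α hu α)
      have h2 : 1 * (4 * m + 1) + 4 * m = 4 * m * 2 + 1 := by ring
      rwa [h2] at h1
    have hfam : ∀ i : ι, (localIdeals σ {monoidPoly ((wPol u m α (4 * α)) ^ 2)
        (X (Sum.inl i) ^ (4 * m + 1) * wPol u m α α)}).Finite := by
      intro i
      refine H (4 * m * 2) _ _ hA (hB i) ?_ (isRelPrime_AB u m α hu hm hα i _)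
      intro h0
      have h1 := wPol_eval_r u m α hu hm (4 * α)
      rw [eq_zero_of_pow_eq_zero h0, map_zero] at h1
      exact hα (by linarith)
    have hfin : (⋃ i : ι, (fun J => (rename (some ∘ Sum.inl : ι → Option (ι ⊕ Fin 2))) ⁻¹' J) ''
        (localIdeals σ {monoidPoly ((wPol u m α (4 * α)) ^ 2)
          (X (Sum.inl i) ^ (4 * m + 1) * wPol u m α α)})).Finite :=
      Set.finite_iUnion (fun i => (hfam i).image _)
    refine hfin.subset ?_
    rintro _ ⟨x, hx0, hxS, rfl⟩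
    obtain ⟨i, hi⟩ : ∃ i, x i ≠ 0 := by
      by_contra hcon
      push Not at hcon
      exact hx0 (funext hcon)
    have hxu : eval₂ σ x u = 0 := (huS x).mpr hxS
    refine Set.mem_iUnion.mpr ⟨i, _, ⟨ext0 x, ?_, ?_, rfl⟩,
      (localIdeal_monoid hδ h hm S hS huS i _ x hi hxu
        ⟨_, monoidPoly_homogeneous hA (hB i)⟩).symm⟩
    · intro h0
      apply hx0
      funext j
      exact congrFun h0 (some (Sum.inl j))
    · rintro _ rfl
      rw [eval_monoidPoly, eval₂_mul, eval_w_zero σ hm x hxu]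
      change (0 : L) * _ - _ * 0 = 0
      ring

end Main

end Pool.Agent.MazurZ
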