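import Mathlib
import Pool.Agent.MazurZ.Monoid

set_option autoImplicit false

namespace Pool.Agent.MazurZ

open scoped TensorProduct
open MvPolynomial

/-- In a semisimple commutative ring the kernel of a map to a field is generated by an
idempotent. -/
theorem exists_idem {A L : Type*} [CommRing A] [IsSemisimpleRing A] [Field L] (Φ : A →+* L) :
    ∃ e : A, e * e = e ∧ Φ e = 1 ∧ ∀ a, Φ a = 0 → a * e = 0 := by
  obtain ⟨J, hJ⟩ := exists_isCompl (RingHom.ker Φ : Ideal A)
  have htop : (RingHom.ker Φ : Ideal A) ⊔ J = ⊤ := hJ.sup_eq_top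
  have h1 : (1 : A) ∈ (RingHom.ker Φ : Ideal A) ⊔ J := by rw [htop]; trivial
  obtain ⟨a, ha, e, he, hae⟩ := Submodule.mem_sup.mp h1
  have hker : ∀ a, Φ a = 0 → a * e = 0 := by
    intro a ha
    have h2 : a * e ∈ (RingHom.ker Φ : Ideal A) ⊓ J := by
      refine ⟨?_, J.mul_mem_left a he⟩
      change Φ (a * e) = 0
      rw [map_mul, ha, zero_mul]
    rw [hJ.inf_eq_bot] at h2
    exact h2
  refine ⟨e, ?_, ?_, hker⟩
  · have h3 := hker a ha
    have h4 : (a + e) * e = e := by rw [hae, one_mul]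
    rwa [add_mul, h3, zero_add] at h4
  · have h3 : Φ a = 0 := ha
    have h4 := congrArg Φ hae
    rwa [map_add, h3, zero_add, map_one] at h4

section Comp

variable {K : Type*} [Field K] [Algebra ℚ K] {D : Type*} (b : Module.Basis D ℚ K)

/-- coefficientwise coordinate of a polynomial -/
noncomputable def cmp {κ : Type*} (k : D) (P : MvPolynomial κ K) : MvPolynomial κ ℚ :=
  ∑ e ∈ P.support, monomial e (b.coord k (P.coeff e))

theorem eval_cmp {κ : Type*} (k : D) (P : MvPolynomial κ K) (z : κ → ℚ) :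
    eval z (cmp b k P) = b.coord k (eval (fun p => algebraMap ℚ K (z p)) P) := by
  rw [cmp, map_sum, eval_eq, map_sum]
  refine Finset.sum_congr rfl (fun e _ => ?_)
  rw [eval_monomial]
  have h1 : ∏ i ∈ e.support, (algebraMap ℚ K (z i)) ^ (e i) =
      algebraMap ℚ K (∏ i ∈ e.support, (z i) ^ (e i)) := by
    rw [map_prod]; simp
  rw [h1, mul_comm (P.coeff e), ← Algebra.smul_def, map_smul, smul_eq_mul, Finsupp.prod, mul_comm]

theorem eval₂_cmp {κ : Type*} {F : Type*} [Field F] [Algebra ℚ F] (k : D) (P : MvPolynomial κ K)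
    (z : κ → F) :
    eval₂ (algebraMap ℚ F) z (cmp b k P) =
      (Algebra.TensorProduct.basis F b).coord k
        (eval₂ (Algebra.TensorProduct.includeRight : K →ₐ[ℚ] F ⊗[ℚ] K).toRingHom
          (fun p => algebraMap F (F ⊗[ℚ] K) (z p)) P) := by
  rw [cmp, eval₂_sum, eval₂_eq, map_sum]
  refine Finset.sum_congr rfl (fun e _ => ?_)
  rw [eval₂_monomial]
  have h1 : ∏ i ∈ e.support, (algebraMap F (F ⊗[ℚ] K) (z i)) ^ (e i) =
      algebraMap F (F ⊗[ℚ] K) (∏ i ∈ e.support, (z i) ^ (e i)) := by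
    rw [map_prod]; simp
  have h2 : (Algebra.TensorProduct.basis F b).coord k
      ((Algebra.TensorProduct.includeRight : K →ₐ[ℚ] F ⊗[ℚ] K).toRingHom (P.coeff e)) =
      algebraMap ℚ F (b.coord k (P.coeff e)) := by
    change (Algebra.TensorProduct.basis F b).coord k ((1 : F) ⊗ₜ[ℚ] (P.coeff e)) = _
    rw [Module.Basis.coord_apply, Algebra.TensorProduct.basis_repr_tmul]
    simp
  have h3 : (Algebra.TensorProduct.includeRight : K →ₐ[ℚ] F ⊗[ℚ] K).toRingHom (P.coeff e) *
      ∏ i ∈ e.support, (algebraMap F (F ⊗[ℚ] K) (z i)) ^ (e i) =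
      (∏ i ∈ e.support, (z i) ^ (e i)) •
        (Algebra.TensorProduct.includeRight : K →ₐ[ℚ] F ⊗[ℚ] K).toRingHom (P.coeff e) := by
    rw [h1, mul_comm, Algebra.smul_def]
  rw [h3, map_smul, smul_eq_mul, h2, Finsupp.prod, mul_comm]

theorem cmp_homogeneous {κ : Type*} (k : D) {P : MvPolynomial κ K} {d : ℕ}
    (hP : P.IsHomogeneous d) : (cmp b k P).IsHomogeneous d := by
  refine IsHomogeneous.sum _ _ _ (fun e he => ?_)
  refine isHomogeneous_monomial _ ?_
  have := hP (mem_support_iff.mp he)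
  rw [Finsupp.degree_eq_weight_one]
  exact this

variable [Fintype D]

/-- The coordinate polynomials of `f`. -/
noncomputable def fk {ι : Type*} (k : D) (f : MvPolynomial ι K) : MvPolynomial (ι × D) ℚ :=
  cmp b k (bind₁ (fun i => ∑ j, C (b j) * X (i, j)) f)

theorem fk_homogeneous {ι : Type*} (k : D) {f : MvPolynomial ι K} {d : ℕ}
    (hf : f.IsHomogeneous d) : (fk b k f).IsHomogeneous d := by
  refine cmp_homogeneous b k ?_
  have h := hf.aeval (fun i => (∑ j, C (b j) * X (i, j) : MvPolynomial (ι × D) K)) (n := 1)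
    (fun i => IsHomogeneous.sum _ _ _ (fun j _ => isHomogeneous_C_mul_X _ _))
  rw [one_mul] at h
  exact h

theorem eval_fk {ι : Type*} (k : D) (f : MvPolynomial ι K) (z : ι × D → ℚ) :
    eval z (fk b k f) = b.coord k (eval (fun i => ∑ j, z (i, j) • b j) f) := by
  rw [fk, eval_cmp]
  congr 1
  change eval₂Hom (RingHom.id K) _ _ = eval₂Hom (RingHom.id K) _ _
  rw [eval₂Hom_bind₁]
  congr 2
  funext i
  simp only [map_sum, map_mul, eval₂Hom_X', coe_eval₂Hom, eval₂_C, RingHom.id_apply]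
  refine Finset.sum_congr rfl (fun j _ => ?_)
  rw [Algebra.smul_def, mul_comm]

theorem eval₂_fk {ι : Type*} {F : Type*} [Field F] [Algebra ℚ F] (k : D) (f : MvPolynomial ι K)
    (z : ι × D → F) :
    eval₂ (algebraMap ℚ F) z (fk b k f) =
      (Algebra.TensorProduct.basis F b).coord k
        (eval₂ (Algebra.TensorProduct.includeRight : K →ₐ[ℚ] F ⊗[ℚ] K).toRingHom
          (fun i => ∑ j, z (i, j) • (Algebra.TensorProduct.basis F b) j) f) := by
  rw [fk, eval₂_cmp]
  congr 1
  rw [← coe_eval₂Hom, eval₂Hom_bind₁, ← coe_eval₂Hom]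
  congr 2
  funext i
  simp only [map_sum, map_mul, eval₂Hom_X', coe_eval₂Hom, eval₂_C]
  refine Finset.sum_congr rfl (fun j _ => ?_)
  rw [Algebra.smul_def, mul_comm, Algebra.TensorProduct.basis_apply]
  rfl

/-- substitution polynomial in the coordinates of the multiplier -/
noncomputable def mk {ι : Type*} (k : D) (f : MvPolynomial ι K) (y : ι → K) : MvPolynomial D ℚ :=
  cmp b k (bind₁ (fun i => ∑ j, C (b j * y i) * X j) f)

theorem eval_mk {ι : Type*} (k : D) (f : MvPolynomial ι K) (y : ι → K) (l : D → ℚ) :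
    eval l (mk b k f y) = b.coord k (eval (fun i => (∑ j, l j • b j) * y i) f) := by
  rw [mk, eval_cmp]
  congr 1
  change eval₂Hom (RingHom.id K) _ _ = eval₂Hom (RingHom.id K) _ _
  rw [eval₂Hom_bind₁]
  congr 2
  funext i
  simp only [map_sum, map_mul, eval₂Hom_X', coe_eval₂Hom, eval₂_C, RingHom.id_apply]
  rw [Finset.sum_mul]
  refine Finset.sum_congr rfl (fun j _ => ?_)
  rw [Algebra.smul_def]; ring

end Comp

end Pool.Agent.MazurZ
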