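import Mathlib
import Pool.Agent.MazurZ.Idem

set_option autoImplicit false

namespace Pool.Agent.MazurZ

open scoped TensorProduct
open MvPolynomial

/-- Zariski density of nonempty open sets of rational points. -/
theorem poly_zero_of_open {D : Type*} [Finite D] {F : Type*} [NontriviallyNormedField F]
    (σ₀ : ℚ →+* F) (hσ₀ : DenseRange σ₀) {V : Set (D → F)} (hV : IsOpen V) {a : D → F}
    (ha : a ∈ V) (P : MvPolynomial D ℚ)
    (hP : ∀ l : D → ℚ, (fun j => σ₀ (l j)) ∈ V → eval l P = 0) : P = 0 := by
  classical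
  cases nonempty_fintype D
  obtain ⟨u, hu, huV⟩ := (isOpen_pi_iff').mp hV a ha
  refine MvPolynomial.funext_set (fun j => {q : ℚ | σ₀ q ∈ u j}) (fun j => ?_) (fun l hl => ?_)
  · intro hfin
    have hinf : (u j).Infinite := infinite_of_mem_nhds (a j) ((hu j).1.mem_nhds (hu j).2)
    have hfin' : (σ₀ '' {q : ℚ | σ₀ q ∈ u j}).Finite := hfin.image _
    have hop : IsOpen (u j \ (σ₀ '' {q : ℚ | σ₀ q ∈ u j})) := (hu j).1.sdiff hfin'.isClosed
    have hne : (u j \ (σ₀ '' {q : ℚ | σ₀ q ∈ u j})).Nonempty := (hinf.sdiff hfin').nonempty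
    obtain ⟨q, hq⟩ := hσ₀.exists_mem_open hop hne
    exact hq.2 ⟨q, hq.1, rfl⟩
  · rw [map_zero]
    refine hP l (huV ?_)
    intro j _
    exact hl j (Set.mem_univ j)

section Main

variable {K : Type*} [Field K] [NumberField K] {L F : Type*} [NontriviallyNormedField L]
  [NontriviallyNormedField F] [CompleteSpace F] [Algebra F L] [ContinuousSMul F L]
  [Algebra ℚ F]

/-- finite dimensionality of the completion -/
theorem finiteDimensional_of_dense (σ : K →+* L) (hσ : DenseRange σ)
    (hcomp : ∀ q : ℚ, algebraMap F L (algebraMap ℚ F q) = σ (algebraMap ℚ K q)) :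
    FiniteDimensional F L := by
  let b := Module.finBasis ℚ K
  let W : Submodule F L := Submodule.span F (Set.range (fun k => σ (b k)))
  have hWfin : FiniteDimensional F W := FiniteDimensional.span_of_finite F (Set.finite_range _)
  have hWcl : IsClosed (W : Set L) := W.closed_of_finiteDimensional
  have hsub : Set.range σ ⊆ (W : Set L) := by
    rintro _ ⟨y, rfl⟩
    rw [← b.sum_repr y, map_sum]
    refine W.sum_mem (fun k _ => ?_)
    rw [Algebra.smul_def, map_mul, ← hcomp, ← Algebra.smul_def]
    exact W.smul_mem _ (Submodule.subset_span ⟨k, rfl⟩)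
  have htop : W = ⊤ := by
    rw [eq_top_iff]
    intro l _
    exact hWcl.closure_subset_iff.mpr hsub (hσ l)
  rw [htop] at hWfin
  exact (Submodule.topEquiv (R := F) (M := L)).finiteDimensional

/-- The algebraic data: an idempotent splitting. -/
theorem exists_splitting (σ : K →+* L) (hσ : DenseRange σ)
    (hcomp : ∀ q : ℚ, algebraMap F L (algebraMap ℚ F q) = σ (algebraMap ℚ K q)) :
    ∃ (Φ : F ⊗[ℚ] K →ₐ[F] L) (e : F ⊗[ℚ] K) (jl : L →ₗ[F] F ⊗[ℚ] K),
      (∀ y : K, Φ ((1 : F) ⊗ₜ[ℚ] y) = σ y) ∧ e * e = e ∧ Φ e = 1 ∧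
      (∀ a, jl (Φ a) = a * e) ∧ (∀ l, Φ (jl l) = l) := by
  classical
  let _ : Algebra ℚ L := ((algebraMap F L).comp (algebraMap ℚ F)).toAlgebra
  have _ : IsScalarTower ℚ F L := IsScalarTower.of_algebraMap_eq' rfl
  let σa : K →ₐ[ℚ] L := { σ with commutes' := fun q => (hcomp q).symm }
  let Φ : F ⊗[ℚ] K →ₐ[F] L :=
    Algebra.TensorProduct.lift (Algebra.ofId F L) σa (fun _ _ => Commute.all _ _)
  have hΦ1 : ∀ y : K, Φ ((1 : F) ⊗ₜ[ℚ] y) = σ y := by
    intro y
    simp [Φ, Algebra.TensorProduct.lift_tmul, σa]
  have hfinA : Module.Finite F (F ⊗[ℚ] K) := inferInstance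
  have hsurj : Function.Surjective Φ := by
    have hWfin : FiniteDimensional F (LinearMap.range Φ.toLinearMap) := inferInstance
    have hWcl : IsClosed ((LinearMap.range Φ.toLinearMap : Submodule F L) : Set L) :=
      (LinearMap.range Φ.toLinearMap).closed_of_finiteDimensional
    have hsub : Set.range σ ⊆ ((LinearMap.range Φ.toLinearMap : Submodule F L) : Set L) := by
      rintro _ ⟨y, rfl⟩
      exact ⟨(1 : F) ⊗ₜ[ℚ] y, hΦ1 y⟩
    intro l
    obtain ⟨a, ha⟩ := hWcl.closure_subset_iff.mpr hsub (hσ l)
    exact ⟨a, ha⟩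
  have hchar : CharZero F := algebraRat.charZero F
  have hsep : Algebra.FormallyEtale ℚ K := Algebra.FormallyEtale.of_isSeparable ℚ K
  have hunr : Algebra.FormallyUnramified F (F ⊗[ℚ] K) := inferInstance
  have hred : IsReduced (F ⊗[ℚ] K) := Algebra.FormallyUnramified.isReduced_of_field F _
  have hart : IsArtinianRing (F ⊗[ℚ] K) := IsArtinianRing.of_finite F _
  have hss : IsSemisimpleRing (F ⊗[ℚ] K) := IsArtinianRing.isSemisimpleRing_of_isReduced _
  obtain ⟨e, he1, he2, he3⟩ := exists_idem (Φ : F ⊗[ℚ] K →+* L)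
  obtain ⟨s, hs⟩ := Φ.toLinearMap.exists_rightInverse_of_surjective
    (LinearMap.range_eq_top.mpr hsurj)
  have hs' : ∀ l, Φ (s l) = l := fun l => by
    have := LinearMap.congr_fun hs l
    exact this
  refine ⟨Φ, e, (LinearMap.mulRight F e) ∘ₗ s, hΦ1, he1, he2, ?_, ?_⟩
  · intro a
    have h1 : (s (Φ a) - a) * e = 0 := he3 _ (by
      change Φ (s (Φ a) - a) = 0
      rw [map_sub, hs', sub_self])
    rw [sub_mul, sub_eq_zero] at h1
    exact h1
  · intro l
    change Φ (s l * e) = l
    rw [map_mul, hs']
    have : Φ e = 1 := he2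
    rw [this, mul_one]

/-- Step 1 of the reduction: from number fields to the rationals. -/
theorem finite_descent (σ : K →+* L) (hσ : DenseRange σ)
    (hσ₀ : DenseRange (algebraMap ℚ F))
    (hcomp : ∀ q : ℚ, algebraMap F L (algebraMap ℚ F q) = σ (algebraMap ℚ K q))
    {ι : Type*} [Finite ι] (S : Set (MvPolynomial ι K)) (hS : ∀ g ∈ S, ∃ d, g.IsHomogeneous d)
    {D : Type*} [Fintype D] (b : Module.Basis D ℚ K)
    (H : (localIdeals (algebraMap ℚ F) {P | ∃ g ∈ S, ∃ k, P = fk b k g}).Finite) :
    (localIdeals σ S).Finite := by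
  classical
  obtain ⟨Φ, e, jl, hΦ1, he, hΦe, hj1, hj2⟩ := exists_splitting (F := F) σ hσ hcomp
  have hfd : FiniteDimensional F L := finiteDimensional_of_dense σ hσ hcomp
  let B := Algebra.TensorProduct.basis F b
  let inc : K →+* F ⊗[ℚ] K := (Algebra.TensorProduct.includeRight : K →ₐ[ℚ] F ⊗[ℚ] K).toRingHom
  have hinc : ∀ y, inc y = (1 : F) ⊗ₜ[ℚ] y := fun y => rfl
  have hΦinc : ∀ y, Φ (inc y) = σ y := hΦ1
  have hBk : ∀ k, B k = inc (b k) := fun k => Algebra.TensorProduct.basis_apply _ _
  -- coordinates of inc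
  have hcoordinc : ∀ k (y : K), B.coord k (inc y) = algebraMap ℚ F (b.coord k y) := by
    intro k y
    rw [hinc, Module.Basis.coord_apply, Algebra.TensorProduct.basis_repr_tmul]
    simp
  have hj0 : jl 1 = e := by
    have := hj1 1
    rwa [map_one, one_mul] at this
  let j : (ι → L) → (ι × D → F) := fun x p => B.coord p.2 (jl (x p.1))
  have hjsum : ∀ (x : ι → L) i, ∑ k, j x (i, k) • B k = jl (x i) := by
    intro x i
    exact B.sum_repr (jl (x i))
  have hjcont : Continuous j := by
    refine continuous_pi (fun p => ?_)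
    exact ((B.coord p.2 ∘ₗ jl).continuous_of_finiteDimensional).comp (continuous_apply p.1)
  -- the map back
  let ph : (ι × D → F) → (ι → L) := fun z i => ∑ k, z (i, k) • σ (b k)
  have hphcont : Continuous ph := by
    refine continuous_pi (fun i => ?_)
    refine continuous_finsetSum _ (fun k _ => ?_)
    exact (continuous_apply _).smul continuous_const
  have hphΦ : ∀ z i, ph z i = Φ (∑ k, z (i, k) • B k) := by
    intro z i
    rw [map_sum]
    refine Finset.sum_congr rfl (fun k _ => ?_)
    rw [map_smul, hBk, hΦinc]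
  have hphj : ∀ x, ph (j x) = x := by
    intro x
    funext i
    rw [hphΦ, hjsum, hj2]
  have hphrat : ∀ (z : ι × D → ℚ) i, ph (fun p => algebraMap ℚ F (z p)) i =
      σ (∑ k, z (i, k) • b k) := by
    intro z i
    simp only [ph]
    rw [map_sum]
    refine Finset.sum_congr rfl (fun k _ => ?_)
    rw [Algebra.smul_def, hcomp, Algebra.smul_def, map_mul]
  -- j(x) lies on the new algebraic set
  have hpoly : ∀ (x : ι → L) (g : MvPolynomial ι K) (d : ℕ), g.IsHomogeneous d → 0 < d →
      eval₂ inc (fun i => jl (x i)) g = jl (eval₂ σ x g) := by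
    intro x g d hg hd
    have h1 : (fun i => jl (x i)) = fun i => e * jl (x i) := by
      funext i
      have h2 := hj1 (jl (x i))
      rw [hj2] at h2
      rw [mul_comm]
      exact h2
    rw [h1, eval₂_smul_hom inc hg]
    have hed : e ^ d = e := by
      obtain ⟨d, rfl⟩ : ∃ d', d = d' + 1 := ⟨d - 1, by omega⟩
      clear hg hd
      induction d with
      | zero => simp
      | succ d ih => rw [pow_succ, ih, he]
    rw [hed, mul_comm, ← hj1]
    congr 1
    have h3 := eval₂_comp_left (Φ : F ⊗[ℚ] K →+* L) inc (fun i => jl (x i)) g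
    have h4 : (Φ : F ⊗[ℚ] K →+* L).comp inc = σ := by
      ext y; exact hΦinc y
    rw [h4] at h3
    have h5 : (⇑(Φ : F ⊗[ℚ] K →+* L) ∘ fun i => jl (x i)) = x := by
      funext i; exact hj2 _
    rw [h5] at h3
    exact h3
  have hxS' : ∀ x : ι → L, (∀ g ∈ S, eval₂ σ x g = 0) →
      ∀ P ∈ {P | ∃ g ∈ S, ∃ k, P = fk b k g}, eval₂ (algebraMap ℚ F) (j x) P = 0 := by
    rintro x hx _ ⟨g, hg, k, rfl⟩
    rw [eval₂_fk]
    have h1 : (fun i => ∑ k, j x (i, k) • (Algebra.TensorProduct.basis F b) k) =
        fun i => jl (x i) := by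
      funext i; exact hjsum x i
    rw [h1]
    obtain ⟨d, hd⟩ := hS g hg
    rcases Nat.eq_zero_or_pos d with h0 | h0
    · subst h0
      obtain ⟨a, rfl⟩ : ∃ a, g = C a := ⟨coeff 0 g, (totalDegree_eq_zero_iff_eq_C).mp
        ((totalDegree_zero_iff_isHomogeneous _).mpr hd)⟩
      have h2 := hx _ hg
      rw [eval₂_C] at h2
      rw [(map_eq_zero σ).mp h2, map_zero, eval₂_zero, map_zero]
    · have h2 := hpoly x g d hd h0
      rw [hx g hg, map_zero] at h2
      change (Algebra.TensorProduct.basis F b).coord k (eval₂ inc _ g) = 0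
      rw [h2, map_zero]
  -- rational points
  have hzero : ∀ (z : ι × D → ℚ), (∀ P ∈ {P | ∃ g ∈ S, ∃ k, P = fk b k g}, eval z P = 0) ↔
      ∀ g ∈ S, eval (fun i => ∑ k, z (i, k) • b k) g = 0 := by
    intro z
    constructor
    · intro h g hg
      have h1 : ∀ k, b.coord k (eval (fun i => ∑ k, z (i, k) • b k) g) = 0 := by
        intro k
        rw [← eval_fk]
        exact h _ ⟨g, hg, k, rfl⟩
      exact (b.forall_coord_eq_zero_iff).mp h1
    · rintro h _ ⟨g, hg, k, rfl⟩
      rw [eval_fk, h g hg, map_zero]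
  have hmain : ∀ x : ι → L, x ≠ 0 → (∀ g ∈ S, eval₂ σ x g = 0) →
      localIdeal σ S x = {f | ∀ k, fk b k f ∈
        localIdeal (algebraMap ℚ F) {P | ∃ g ∈ S, ∃ k, P = fk b k g} (j x)} := by
    intro x hx0 hxS
    ext f
    constructor
    · rintro ⟨U, hU, hf⟩ k
      refine ⟨ph ⁻¹' U, ?_, ?_⟩
      · refine hphcont.continuousAt.preimage_mem_nhds ?_
        rw [hphj]; exact hU
      · rintro z hz0 hzS ⟨c, hc0, hcU⟩ t
        rw [eval_fk]
        have h1 : (fun i => ∑ k, (t • z) (i, k) • b k) =
            (algebraMap ℚ K t) • (fun i => ∑ k, z (i, k) • b k) := by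
          funext i
          simp only [Pi.smul_apply, smul_eq_mul, Finset.mul_sum]
          refine Finset.sum_congr rfl (fun k _ => ?_)
          rw [mul_smul, Algebra.smul_def]
        rw [h1, hf (fun i => ∑ k, z (i, k) • b k) ?_ ((hzero z).mp hzS) ⟨algebraMap F L c, ?_, ?_⟩,
          map_zero]
        · intro h0
          apply hz0
          funext p
          have h2 : ∑ k, z (p.1, k) • b k = 0 := congrFun h0 p.1
          have h3 := congrArg (b.coord p.2) h2
          have h4 : b.coord p.2 (∑ k, z (p.1, k) • b k) = z (p.1, p.2) := by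
            rw [map_sum]
            simp only [map_smul, Module.Basis.coord_apply, Module.Basis.repr_self, smul_eq_mul]
            simp [Finsupp.single_apply]
          rw [h4, map_zero] at h3
          exact h3
        · rwa [Ne, map_eq_zero]
        · have h2 : ph (fun p => c * algebraMap ℚ F (z p)) =
              fun i => algebraMap F L c * σ (∑ k, z (i, k) • b k) := by
            funext i
            rw [← hphrat]
            simp only [ph, Finset.mul_sum]
            refine Finset.sum_congr rfl (fun k _ => ?_)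
            rw [mul_smul, Algebra.smul_def c]
          rw [← h2]
          exact hcU
    · intro hf
      -- common neighbourhood
      have hf' : ∀ k, ∃ U ∈ nhds (j x), ∀ z : ι × D → ℚ, z ≠ 0 →
          (∀ P ∈ {P | ∃ g ∈ S, ∃ k, P = fk b k g}, eval z P = 0) →
          (∃ c : F, c ≠ 0 ∧ (fun p => c * algebraMap ℚ F (z p)) ∈ U) →
          ∀ t : ℚ, eval (t • z) (fk b k f) = 0 := fun k => hf k
      choose Uk hUk hUkf using hf'
      have hUint : (⋂ k, Uk k) ∈ nhds (j x) := Filter.iInter_mem.mpr hUk
      obtain ⟨U', hU'sub, hU'open, hU'x⟩ := mem_nhds_iff.mp hUint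
      refine ⟨j ⁻¹' U', hjcont.continuousAt.preimage_mem_nhds (hU'open.mem_nhds hU'x), ?_⟩
      rintro y hy0 hyS ⟨c, hc0, hcU⟩ t
      -- replace c by an element of K
      have hopen1 : IsOpen {l : L | l ≠ 0 ∧ (fun i => l * σ (y i)) ∈ j ⁻¹' U'} := by
        refine IsOpen.inter isOpen_ne ?_
        have hc1 : Continuous (fun l : L => (fun i => l * σ (y i))) :=
          continuous_pi (fun i => continuous_id.mul continuous_const)
        exact (hU'open.preimage hjcont).preimage hc1
      obtain ⟨μ, hμ0, hμU⟩ := hσ.exists_mem_open hopen1 ⟨c, hc0, hcU⟩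
      have hμ : μ ≠ 0 := fun h => hμ0 (by rw [h, map_zero])
      let y₁ : ι → K := fun i => μ * y i
      have hy₁ : (fun i => σ (y₁ i)) ∈ j ⁻¹' U' := by
        have : (fun i => σ (y₁ i)) = fun i => σ μ * σ (y i) := by
          funext i; simp [y₁]
        rw [this]; exact hμU
      have hy₁0 : ∃ i, y₁ i ≠ 0 := by
        by_contra hcon
        push Not at hcon
        apply hy0
        funext i
        rcases mul_eq_zero.mp (hcon i) with h | h
        · exact absurd h hμ
        · exact h
      have hy₁S : ∀ g ∈ S, eval y₁ g = 0 := by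
        intro g hg
        obtain ⟨d, hd⟩ := hS g hg
        have h1 := eval₂_smul_hom (RingHom.id K) hd μ y
        change eval₂ (RingHom.id K) _ _ = 0
        have h2 : eval₂ (RingHom.id K) y g = 0 := hyS g hg
        rw [h2, mul_zero] at h1
        exact h1
      -- the open set of multipliers
      let mul1 : (D → F) → (ι × D → F) := fun a p =>
        B.coord p.2 ((∑ k, a k • B k) * inc (y₁ p.1))
      have hmulcont : Continuous mul1 := by
        refine continuous_pi (fun p => ?_)
        let lin : (D → F) →ₗ[F] F :=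
          (B.coord p.2) ∘ₗ (LinearMap.mulRight F (inc (y₁ p.1))) ∘ₗ
            (Fintype.linearCombination F (fun k => B k))
        have : (fun a : D → F => mul1 a p) = lin := by
          funext a
          rfl
        change Continuous (fun a : D → F => mul1 a p)
        rw [this]
        exact lin.continuous_of_finiteDimensional
      let a₀ : D → F := fun k => B.coord k e
      have ha₀e : ∑ k, a₀ k • B k = e := B.sum_repr e
      have hmul0 : mul1 a₀ = j (fun i => σ (y₁ i)) := by
        funext p
        simp only [mul1, j]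
        rw [ha₀e]
        congr 1
        rw [mul_comm, ← hj1, hΦinc]
      have ha₀ne : a₀ ≠ 0 := by
        intro h0
        have h1 : e = 0 := by
          rw [← ha₀e, h0]; simp
        rw [h1, map_zero] at hΦe
        exact zero_ne_one hΦe
      have hVopen : IsOpen ({a : D → F | a ≠ 0} ∩ mul1 ⁻¹' U') :=
        isOpen_ne.inter (hU'open.preimage hmulcont)
      have ha₀V : a₀ ∈ ({a : D → F | a ≠ 0} ∩ mul1 ⁻¹' U') := ⟨ha₀ne, by
        change mul1 a₀ ∈ U'
        rw [hmul0]; exact hy₁⟩
      -- f vanishes at λ y₁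
      have hvan : ∀ l : D → ℚ, (fun k => algebraMap ℚ F (l k)) ∈
          ({a : D → F | a ≠ 0} ∩ mul1 ⁻¹' U') →
          eval (fun i => (∑ k, l k • b k) * y₁ i) f = 0 := by
        rintro l ⟨hl0, hlU⟩
        let lam : K := ∑ k, l k • b k
        have hlam : lam ≠ 0 := by
          intro h0
          apply hl0
          funext k
          have h3 := congrArg (b.coord k) h0
          have h4 : b.coord k lam = l k := by
            simp only [lam]
            rw [map_sum]
            simp only [map_smul, Module.Basis.coord_apply, Module.Basis.repr_self, smul_eq_mul]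
            simp [Finsupp.single_apply]
          rw [h4, map_zero] at h3
          rw [h3, map_zero]; rfl
        let z : ι × D → ℚ := fun p => b.coord p.2 (lam * y₁ p.1)
        have hzy : (fun i => ∑ k, z (i, k) • b k) = fun i => lam * y₁ i := by
          funext i
          exact b.sum_repr (lam * y₁ i)
        have hinclam : ∑ k, algebraMap ℚ F (l k) • B k = inc lam := by
          simp only [lam]
          rw [map_sum]
          refine Finset.sum_congr rfl (fun k _ => ?_)
          rw [hBk, hinc, hinc, TensorProduct.tmul_smul, TensorProduct.smul_tmul',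
            TensorProduct.smul_tmul']
          simp [Algebra.smul_def]
        have hz1 : (fun p => (1 : F) * algebraMap ℚ F (z p)) =
            mul1 (fun k => algebraMap ℚ F (l k)) := by
          funext p
          simp only [mul1]
          rw [hinclam, ← map_mul, hcoordinc, one_mul]
        have hz0 : z ≠ 0 := by
          obtain ⟨i, hi⟩ := hy₁0
          intro h0
          have h1 : lam * y₁ i = 0 := by
            have h2 := congrFun hzy i
            simp only [h0, Pi.zero_apply, zero_smul, Finset.sum_const_zero] at h2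
            exact h2.symm
          exact (mul_ne_zero hlam hi) h1
        have hzS : ∀ P ∈ {P | ∃ g ∈ S, ∃ k, P = fk b k g}, eval z P = 0 := by
          rw [hzero, hzy]
          intro g hg
          obtain ⟨d, hd⟩ := hS g hg
          have h1 := eval₂_smul_hom (RingHom.id K) hd lam y₁
          have h2 : eval₂ (RingHom.id K) y₁ g = 0 := hy₁S g hg
          rw [h2, mul_zero] at h1
          exact h1
        have h5 : ∀ k, b.coord k (eval (fun i => lam * y₁ i) f) = 0 := by
          intro k
          have h6 := hUkf k z hz0 hzS ⟨1, one_ne_zero, by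
            rw [hz1]
            exact (Set.mem_iInter.mp (hU'sub hlU)) k⟩ 1
          rw [one_smul, eval_fk, hzy] at h6
          exact h6
        exact (b.forall_coord_eq_zero_iff).mp h5
      have hmk : ∀ k, mk b k f y₁ = 0 := by
        intro k
        refine poly_zero_of_open (algebraMap ℚ F) hσ₀ hVopen ha₀V _ (fun l hl => ?_)
        rw [eval_mk, hvan l hl, map_zero]
      have hall : ∀ lam : K, eval (fun i => lam * y₁ i) f = 0 := by
        intro lam
        have h1 : ∀ k, b.coord k (eval (fun i => lam * y₁ i) f) = 0 := by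
          intro k
          have h2 := eval_mk b k f y₁ (fun k => b.coord k lam)
          rw [hmk, map_zero] at h2
          have h3 : ∑ k, b.coord k lam • b k = lam := b.sum_repr lam
          rw [h3] at h2
          exact h2.symm
        exact (b.forall_coord_eq_zero_iff).mp h1
      have hfin := hall (t * μ⁻¹)
      have h7 : (fun i => t * μ⁻¹ * y₁ i) = t • y := by
        funext i
        simp only [y₁, Pi.smul_apply, smul_eq_mul]
        field_simp
      rwa [h7] at hfin
  refine (H.image (fun J => {f | ∀ k, fk b k f ∈ J})).subset ?_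
  rintro _ ⟨x, hx0, hxS, rfl⟩
  refine ⟨_, ⟨j x, ?_, hxS' x hxS, rfl⟩, (hmain x hx0 hxS).symm⟩
  intro h0
  apply hx0
  rw [← hphj x, h0]
  funext i
  simp [ph]

end Main

end Pool.Agent.MazurZ
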