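import Mathlib
import Pool.Agent.MazurZ.Descent

set_option autoImplicit false

namespace Pool.Agent.MazurZ

open MvPolynomial

/-- Some rational number has norm different from one. -/
theorem exists_rational_norm {K L : Type*} [Field K] [NumberField K] [NontriviallyNormedField L]
    (σ : K →+* L) (hσ : DenseRange σ) : ∃ q : ℚ, q ≠ 0 ∧ ‖σ (algebraMap ℚ K q)‖ ≠ 1 := by
  by_contra hcon
  push Not at hcon
  have hchar : CharZero L := charZero_of_injective_ringHom σ.injective
  have hnat : ∀ n : ℕ, ‖(n : L)‖ ≤ 1 := by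
    intro n
    rcases Nat.eq_zero_or_pos n with h | h
    · subst h; simp
    · have h1 := hcon (n : ℚ) (by exact_mod_cast h.ne')
      have h2 : σ (algebraMap ℚ K (n : ℚ)) = (n : L) := by simp
      rw [h2] at h1
      exact h1.le
  have hult : IsUltrametricDist L :=
    IsUltrametricDist.isUltrametricDist_of_forall_norm_natCast_le_one hnat
  -- elements of K have norm at most one
  have hle : ∀ y : K, ‖σ y‖ ≤ 1 := by
    intro y
    by_contra hy
    push Not at hy
    have hint : IsIntegral ℚ y := Algebra.IsIntegral.isIntegral y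
    obtain ⟨p, hp, hpy⟩ := hint
    have h1 : (p.map (σ.comp (algebraMap ℚ K))).eval (σ y) = 0 := by
      rw [Polynomial.eval_map, ← Polynomial.hom_eval₂, hpy, map_zero]
    have h2 : (p.map (σ.comp (algebraMap ℚ K))).Monic := hp.map _
    set P := p.map (σ.comp (algebraMap ℚ K)) with hP
    have h3 := Polynomial.eval_eq_sum_range (p := P) (σ y)
    rw [Finset.sum_range_succ, h1, h2.coeff_natDegree, one_mul] at h3
    have h4 : ‖∑ i ∈ Finset.range P.natDegree, P.coeff i * σ y ^ i‖ < ‖σ y ^ P.natDegree‖ := by
      rcases Nat.eq_zero_or_pos P.natDegree with h0 | h0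
      · rw [h0]; simp
      · have h5 : ‖∑ i ∈ Finset.range P.natDegree, P.coeff i * σ y ^ i‖ ≤
            ‖σ y‖ ^ (P.natDegree - 1) := by
          refine IsUltrametricDist.norm_sum_le_of_forall_le_of_nonneg (by positivity) ?_
          intro i hi
          rw [norm_mul, norm_pow]
          have h6 : ‖P.coeff i‖ ≤ 1 := by
            rw [hP, Polynomial.coeff_map, RingHom.comp_apply]
            by_cases h7 : p.coeff i = 0
            · rw [h7]; simp
            · exact (hcon _ h7).le
          calc ‖P.coeff i‖ * ‖σ y‖ ^ i ≤ 1 * ‖σ y‖ ^ i :=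
                mul_le_mul_of_nonneg_right h6 (by positivity)
            _ ≤ ‖σ y‖ ^ (P.natDegree - 1) := by
                rw [one_mul]
                refine pow_le_pow_right₀ hy.le ?_
                have := Finset.mem_range.mp hi
                omega
        refine lt_of_le_of_lt h5 ?_
        rw [norm_pow]
        exact pow_lt_pow_right₀ hy (by omega)
    have h5 : σ y ^ P.natDegree = - ∑ i ∈ Finset.range P.natDegree, P.coeff i * σ y ^ i := by
      linear_combination -h3
    rw [h5, norm_neg] at h4
    exact lt_irrefl _ h4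
  obtain ⟨l, hl⟩ := NontriviallyNormedField.non_trivial (α := L)
  obtain ⟨y, hy⟩ := hσ.exists_mem_open (isOpen_lt continuous_const continuous_norm :
    IsOpen {l : L | 1 < ‖l‖}) ⟨l, hl⟩
  exact absurd hy (not_lt.mpr (hle y))

/-- Reduction to completions of `ℚ`. -/
theorem finite_of_rational {K L : Type} [Field K] [NumberField K] [NontriviallyNormedField L]
    [CompleteSpace L] (σ : K →+* L) (hσ : DenseRange σ)
    {ι : Type} [Finite ι] (S : Set (MvPolynomial ι K)) (hS : ∀ g ∈ S, ∃ d, g.IsHomogeneous d)
    {D : Type} [Fintype D] (b : Module.Basis D ℚ K)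
    (H : ∀ (F : Type) [NontriviallyNormedField F] [CompleteSpace F] (τ : ℚ →+* F), DenseRange τ →
      (localIdeals τ {P | ∃ g ∈ S, ∃ k, P = fk b k g}).Finite) :
    (localIdeals σ S).Finite := by
  classical
  let F₀ : Subfield L := (σ.comp (algebraMap ℚ K)).fieldRange.topologicalClosure
  have hmem : ∀ q : ℚ, σ (algebraMap ℚ K q) ∈ F₀ := fun q =>
    Subfield.le_topologicalClosure _ ⟨q, rfl⟩
  have hcl : IsClosed (F₀ : Set L) := Subfield.isClosed_topologicalClosure _
  obtain ⟨q, hq0, hq⟩ := exists_rational_norm σ hσ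
  let nn : NontriviallyNormedField F₀ := NontriviallyNormedField.ofNormNeOne
    ⟨⟨σ (algebraMap ℚ K q), hmem q⟩, by
      intro h0
      have := congrArg Subtype.val h0
      have h1 : σ (algebraMap ℚ K q) = 0 := this
      rw [map_eq_zero, map_eq_zero] at h1
      exact hq0 h1, hq⟩
  have : CompleteSpace F₀ := hcl.completeSpace_coe
  let τ : ℚ →+* F₀ := (σ.comp (algebraMap ℚ K)).codRestrict F₀ hmem
  let _ : Algebra ℚ F₀ := τ.toAlgebra
  have hτ : DenseRange τ := by
    intro x
    have h1 : (x : L) ∈ closure (Set.range (σ.comp (algebraMap ℚ K))) := x.2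
    rw [closure_subtype]
    have h2 : (Subtype.val '' (Set.range τ) : Set L) = Set.range (σ.comp (algebraMap ℚ K)) := by
      ext l
      constructor
      · rintro ⟨_, ⟨q, rfl⟩, rfl⟩
        exact ⟨q, rfl⟩
      · rintro ⟨q, rfl⟩
        exact ⟨τ q, ⟨q, rfl⟩, rfl⟩
    rw [h2]
    exact h1
  have : ContinuousSMul F₀ L := inferInstance
  exact finite_descent (F := F₀) σ hσ hτ (fun q => rfl) S hS b (H F₀ τ hτ)

theorem isRelPrime_rename {κ κ' : Type*} (e : κ ≃ κ') {A B : MvPolynomial κ ℚ}
    (h : IsRelPrime A B) : IsRelPrime (rename e A) (rename e B) := by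
  intro d h1 h2
  have h3 : rename e.symm d ∣ A := by
    have := map_dvd (rename (R := ℚ) e.symm) h1
    rwa [rename_rename, e.symm_comp_self, rename_id, AlgHom.id_apply] at this
  have h4 : rename e.symm d ∣ B := by
    have := map_dvd (rename (R := ℚ) e.symm) h2
    rwa [rename_rename, e.symm_comp_self, rename_id, AlgHom.id_apply] at this
  have h5 := (h h3 h4).map (rename (R := ℚ) e)
  rwa [rename_rename, e.self_comp_symm, rename_id, AlgHom.id_apply] at h5

/-- All algebraic sets over `ℚ`, from monoid hypersurfaces indexed by `Fin`. -/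
theorem finite_of_monoidFin {L : Type} [NontriviallyNormedField L] (σ : ℚ →+* L)
    (hσ : DenseRange σ)
    (H : ∀ (N D : ℕ) (A B : MvPolynomial (Fin (N + 1)) ℚ), A.IsHomogeneous D →
      B.IsHomogeneous (D + 1) → A ≠ 0 → IsRelPrime A B →
      (localIdeals σ {monoidFin A B}).Finite)
    {ι : Type} [Finite ι] (S : Set (MvPolynomial ι ℚ)) (hS : ∀ g ∈ S, ∃ d, g.IsHomogeneous d) :
    (localIdeals σ S).Finite := by
  classical
  refine finite_of_monoids hσ ?_ S hS
  intro D A B hA hB hA0 hAB
  cases nonempty_fintype ι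
  obtain ⟨N, hN⟩ : ∃ N, Fintype.card (ι ⊕ Fin 2) = N + 1 :=
    ⟨Fintype.card ι + 1, by simp⟩
  let e : (ι ⊕ Fin 2) ≃ Fin (N + 1) := Fintype.equivFinOfCardEq hN
  let e' : Option (ι ⊕ Fin 2) ≃ Fin (N + 2) := (Equiv.optionCongr e).trans finSuccEquivLast.symm
  have h1 := H N D (rename e A) (rename e B) hA.rename_isHomogeneous hB.rename_isHomogeneous
    (by
      intro h0
      apply hA0
      exact (rename_injective _ e.injective) (by rw [h0, map_zero])) (isRelPrime_rename e hAB)
  refine finite_rename σ e' _ ?_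
  have h2 : rename e' '' {monoidPoly A B} = {monoidFin (rename e A) (rename e B)} := by
    rw [Set.image_singleton]
    congr 1
    simp only [monoidPoly, monoidFin, map_sub, map_mul, rename_X, rename_rename]
    have h3 : e' none = Fin.last (N + 1) := by simp [e']
    have h4 : ⇑e' ∘ some = Fin.castSucc ∘ e := by
      funext i; simp [e']
    rw [h3, h4]
  rw [h2]
  exact h1

/-- Monoid hypersurfaces are irreducible. -/
theorem monoidFin_prime {N : ℕ} {A B : MvPolynomial (Fin (N + 1)) ℚ} (hA : A ≠ 0)
    (hAB : IsRelPrime A B) : (Ideal.span {monoidFin A B}).radical.IsPrime := by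
  have hirr : Irreducible (monoidFin A B) := by
    let e : MvPolynomial (Fin (N + 2)) ℚ ≃ₐ[ℚ] Polynomial (MvPolynomial (Fin (N + 1)) ℚ) :=
      (renameEquiv ℚ finSuccEquivLast).trans (optionEquivLeft ℚ _)
    have he : (e : MvPolynomial (Fin (N + 2)) ℚ →ₐ[ℚ] _).comp (rename Fin.castSucc) =
        Polynomial.CAlgHom := by
      ext i; simp [e, optionEquivLeft_X_some]
    have he' : ∀ P : MvPolynomial (Fin (N + 1)) ℚ, e (rename Fin.castSucc P) =
        Polynomial.C P := fun P => AlgHom.congr_fun he P
    have heX : e (X (Fin.last (N + 1))) = Polynomial.X := by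
      simp [e, optionEquivLeft_X_none]
    refine Irreducible.of_map (f := e) ?_
    have h1 : e (monoidFin A B) = Polynomial.C A * Polynomial.X + Polynomial.C (-B) := by
      rw [monoidFin, map_sub, map_mul, he', he', heX, map_neg]
      ring
    rw [h1]
    exact Polynomial.irreducible_C_mul_X_add_C hA hAB.neg_right
  have hprime : Prime (monoidFin A B) := hirr.prime
  have h1 : (Ideal.span {monoidFin A B}).IsPrime :=
    (Ideal.span_singleton_prime hprime.ne_zero).mpr hprime
  rw [h1.radical]
  exact h1

end Pool.Agent.MazurZ
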